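import Pool.Agent.H48.ER2.Top
import Pool.Agent.H81.ER.HNO

/-!
# MP_816b90_co: row HNA, antiholes
-/

set_option autoImplicit false

open Pool.Agent.H48.ER Pool.Agent.H52.ER2 Pool.Agent.H66.ER2 Pool.Agent.H48.ER2

namespace Pool.Agent.H54.ER2

/-- a path and a vertex which is adjacent exactly to its ends give an induced cycle -/
theorem cyc_emb {V : Type} (H : SimpleGraph V) (n : ℕ) (u v c : V) (R : Set V)
    (hR : IP H n u v R) (hc : c ∉ R) (hcu : H.Adj c u) (hcv : H.Adj c v)
    (hcw : ∀ w ∈ R, H.Adj c w → w = u ∨ w = v) :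
    Nonempty (SimpleGraph.cycleGraph (n + 2) ↪g H) := by
  obtain ⟨g, g0, gn, gi, ga, hRg⟩ := hR
  have hgR : ∀ i, i ≤ n → g i ∈ R := fun i hi => by rw [hRg]; exact ⟨i, hi, rfl⟩
  have hgc : ∀ i, i ≤ n → g i ≠ c := fun i hi e => hc (e ▸ hgR i hi)
  have hcadj : ∀ i, i ≤ n → (H.Adj c (g i) ↔ i = 0 ∨ i = n) := by
    intro i hi
    constructor
    · intro h
      rcases hcw _ (hgR i hi) h with e | e
      · exact Or.inl (gi i 0 hi (Nat.zero_le _) (e.trans g0.symm))
      · exact Or.inr (gi i n hi le_rfl (e.trans gn.symm))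
    · rintro (rfl | rfl)
      · rw [g0]; exact hcu
      · rw [gn]; exact hcv
  refine ⟨⟨⟨fun i => if i.val ≤ n then g i.val else c, ?_⟩, ?_⟩⟩
  · intro i j e
    have hi := i.isLt
    have hj := j.isLt
    apply Fin.ext
    by_cases h1 : i.val ≤ n <;> by_cases h2 : j.val ≤ n
    · simp only [h1, h2, if_true] at e
      exact gi _ _ h1 h2 e
    · simp only [h1, h2, if_true, if_false] at e
      exact absurd e (hgc _ h1)
    · simp only [h1, h2, if_true, if_false] at e
      exact absurd e.symm (hgc _ h2)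
    · omega
  · intro i j
    have hi := i.isLt
    have hj := j.isLt
    show H.Adj (if i.val ≤ n then g i.val else c) (if j.val ≤ n then g j.val else c) ↔ _
    rw [Pool.Agent.H81.ER.cyc_adj]
    have hne : i ≠ j ↔ i.val ≠ j.val := by
      rw [Ne, Fin.ext_iff]
    rw [hne]
    by_cases h1 : i.val ≤ n <;> by_cases h2 : j.val ≤ n
    · simp only [h1, h2, if_true]
      rw [ga _ _ h1 h2]
      omega
    · simp only [h1, h2, if_true, if_false]
      rw [SimpleGraph.adj_comm, hcadj _ h1]
      omega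
    · simp only [h1, h2, if_true, if_false]
      rw [hcadj _ h2]
      omega
    · simp only [h1, h2, if_false]
      constructor
      · intro h
        exact absurd rfl h.ne
      · intro h
        omega

theorem pf_HNA : T_HNA := by
  intro m G hG n u v c R hR hn hc hcu hcv hcw
  obtain ⟨f⟩ := cyc_emb Gᶜ n u v c R hR hc hcu hcv hcw
  refine hG ⟨n + 2, by omega, ?_⟩
  have f2 := SimpleGraph.Embedding.complEquiv f
  rw [compl_compl] at f2
  exact ⟨f2⟩

end Pool.Agent.H54.ER2
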