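import Pool.Agent.H66.ER2.Targets
import Pool.Agent.H48.ER2.Top

/-!
# MP_816b90_co: row GOOD, every even pair between `sA` and `sB` is good
-/

set_option autoImplicit false
set_option linter.unusedVariables false

open Pool.Agent.H48.ER Pool.Agent.H52.ER2 Pool.Agent.H66.ER2

namespace Pool.Agent.H54.ER2

theorem pf_GOOD (hCNH : T_CNH) (hCC : Pool.Agent.H48.ER2.T_CC) (hFAB : T_FAB) (hGSP : T_GSP)
    (hGFL : T_GFL) (hGC1 : T_GC1) (hGC2 : T_GC2) (hGC3 : T_GC3) (hGNR : T_GNR)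
    (hGNC : T_GNC) : T_GOOD := by
  intro V G v k z a b hG hco hF hso ha hb hab
  refine ⟨hab, hCC V G a b hG hab ?_⟩
  intro a' b' n P hP hodd
  obtain ⟨l, r, n', m', a1, b1, a2, b2, a3, b3, L, R, P', Q', hsp, hnc⟩ :=
    hGSP V G a b a' b' n P hG.noh hG.nop hab hP hodd
  have hfab := hFAB V G v k z hG.noh hF hso
  have hgc : GCx G v k z l r n' m' a1 a b1 b a2 b2 a3 b3 L R P' Q' := by
    refine ⟨hG, hco, hF, hso, hsp, ha, hb, ?_, ?_⟩
    · intro hv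
      exact hnc v hv ⟨ha.1.symm, hb.1.symm⟩
    · intro w hw hvw hwA hwB u hu hadj
      have h1 := hfab.2.2.2.2.2 w hvw hwA hwB ⟨u, hu, hadj⟩
      exact hnc w hw ⟨(h1 a (Or.inl ha)).symm, (h1 b (Or.inr hb)).symm⟩
  -- the corner type
  have corner : ∀ (z : ℕ → V) (l r : ℕ) (a1 x b1 y a2 b2 a3 b3 : V) (L R : Set V),
      GCx G v k z l r n' m' a1 x b1 y a2 b2 a3 b3 L R P' Q' → l = 0 →
      (∀ w ∈ vS L R P' Q', ¬ (G.Adj x w ∧ G.Adj y w)) → False := by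
    intro z l r a1 x b1 y a2 b2 a3 b3 L R hg hl hnc
    rcases hGNC V G v k z l r n' m' a1 x b1 y a2 b2 a3 b3 L R P' Q' hg hl hnc with
      h | ⟨y', R', h⟩
    · exact hGC2 V G v k z l r n' m' a1 x b1 y a2 b2 a3 b3 L R P' Q' hg h hl
    · exact hGC3 V G v k z l r n' m' a1 x b1 y y' a2 b2 a3 b3 L R P' Q' R' h
  by_cases hl : l = 0
  · exact corner z l r a1 a b1 b a2 b2 a3 b3 L R hgc hl hnc
  by_cases hr : r = 0
  · have hfl := (hGFL V G v k z l r n' m' a1 a b1 b a2 b2 a3 b3 L R P' Q' hgc).1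
    refine corner _ r l b1 b a1 a b2 a2 b3 a3 R L hfl hr ?_
    intro w hw hh
    refine hnc w ?_ ⟨hh.2, hh.1⟩
    rcases hw with ((h | h) | h) | h
    · exact Or.inl (Or.inl (Or.inr h))
    · exact Or.inl (Or.inl (Or.inl h))
    · exact Or.inl (Or.inr h)
    · exact Or.inr h
  obtain ⟨l', r', x', y', L', R', hg, hon⟩ :=
    hGNR V G v k z l r n' m' a1 a b1 b a2 b2 a3 b3 L R P' Q' hgc (by omega) (by omega) hnc
  by_cases hl' : l' = 0
  · exact hGC2 V G v k z l' r' n' m' a1 x' b1 y' a2 b2 a3 b3 L' R' P' Q' hg hon hl'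
  by_cases hr' : r' = 0
  · have hfl := hGFL V G v k z l' r' n' m' a1 x' b1 y' a2 b2 a3 b3 L' R' P' Q' hg
    exact hGC2 V G v k _ r' l' n' m' b1 y' a1 x' b2 a2 b3 a3 R' L' P' Q' hfl.1
      (hfl.2.2 hon).1 hr'
  exact hGC1 V G v k z l' r' n' m' a1 x' b1 y' a2 b2 a3 b3 L' R' P' Q' hg hon (by omega) (by omega)

end Pool.Agent.H54.ER2
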